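import Pool.Agent.W70.HRC.Stm
import Pool.Agent.W131.HR.Avg
import Pool.Agent.W12.HR.Den
import Pool.Agent.H387R2.U2

/-! HRC-AVC: from one class to all the classes (adapted from `W131.HR.Avg`, `W880.HR.Fin`). -/

set_option autoImplicit false

open Finset

namespace Pool.Agent.W70.HRC

open Pool.Agent.H361R2.PP Pool.Agent.W70.HR
open Pool.Agent.W131.HR (Vb Vb_sub sum_Vb sub_Vb choose_sum fibre Wpos ex_nonneg)

open Classical in
/-- the good tuples of the class `b` -/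
noncomputable def goodC (k : ℕ) (δ : ℝ) (X b : ℕ) (V : Finset ℕ) : Finset (Fin (k + 1) → ℕ) :=
  (Fintype.piFinset (fun _ : Fin (k + 1) => V)).filter (fun y => Function.Injective y ∧
    δ * ex X (k + 1) ≤ (cnB X b (univ.image y) : ℝ))

open Classical in
/-- the good sets in the class `b` -/
noncomputable def QT (k : ℕ) (δ : ℝ) (X : ℕ) (A : Finset ℕ) (b : ℕ) : Finset (Finset ℕ) :=
  (A.powersetCard (k + 1)).filter (fun T => T ⊆ Vb X A b ∧ δ * ex X (k + 1) ≤ (cnB X b T : ℝ))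

open Classical in
/-- the number of classes in which `T` is good -/
noncomputable def gp (k : ℕ) (δ : ℝ) (X : ℕ) (A T : Finset ℕ) : ℕ :=
  ((range (Wm X)).filter (fun b => T ⊆ Vb X A b ∧ δ * ex X (k + 1) ≤ (cnB X b T : ℝ))).card

lemma good_le (k : ℕ) (δ : ℝ) (X b : ℕ) (A : Finset ℕ) :
    (goodC k δ X b (Vb X A b)).card ≤ (k + 1).factorial * (QT k δ X A b).card := by
  classical
  apply card_le_mul_card_image_of_maps_to (f := fun y : Fin (k + 1) → ℕ => univ.image y)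
  · intro y hy
    unfold goodC at hy
    rw [mem_filter, Fintype.mem_piFinset] at hy
    obtain ⟨h1, h2, h3⟩ := hy
    unfold QT
    have h4 : (univ.image y) ⊆ Vb X A b := by
      intro x hx
      obtain ⟨i, -, rfl⟩ := mem_image.mp hx
      exact h1 i
    rw [mem_filter, mem_powersetCard]
    refine ⟨⟨h4.trans (filter_subset _ _), ?_⟩, h4, ?_⟩
    · rw [card_image_of_injective _ h2, card_univ, Fintype.card_fin]
    · exact h3
  · intro T hT
    unfold QT at hT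
    rw [mem_filter, mem_powersetCard] at hT
    apply fibre k T hT.1.2
    intro y hy
    rw [mem_filter] at hy
    obtain ⟨hy1, hy2⟩ := hy
    unfold goodC at hy1
    rw [mem_filter] at hy1
    exact ⟨hy1.2.1, hy2⟩

lemma sum_QT (k : ℕ) (δ : ℝ) (X : ℕ) (A : Finset ℕ) :
    ∑ b ∈ range (Wm X), (QT k δ X A b).card = ∑ T ∈ A.powersetCard (k + 1), gp k δ X A T := by
  classical
  exact sum_card_bipartiteAbove_eq_sum_card_bipartiteBelow
    (s := range (Wm X)) (t := A.powersetCard (k + 1))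
    (fun b T => T ⊆ Vb X A b ∧ δ * ex X (k + 1) ≤ (cnB X b T : ℝ))

lemma gp_le (k : ℕ) (δ : ℝ) (X : ℕ) (A T : Finset ℕ) (hT : T ⊆ A) : gp k δ X A T ≤ gW X T := by
  classical
  unfold gp gW
  apply card_le_card
  intro b hb
  rw [mem_filter] at hb ⊢
  exact ⟨hb.1, (sub_Vb X A T hT b).mp hb.2.1⟩

lemma cnT_ge (k : ℕ) (δ : ℝ) (X : ℕ) (A T : Finset ℕ) :
    (gp k δ X A T : ℝ) * (δ * ex X (k + 1)) ≤ (cnT X T : ℝ) := by
  classical
  have h1 : cnT X T = ∑ b ∈ range (Wm X), cnB X b T := by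
    unfold cnT
    rw [card_eq_sum_card_fiberwise (f := fun n => n % Wm X) (t := range (Wm X))]
    · apply sum_congr rfl
      intro b _
      unfold cnB SI
      congr 1
      ext n
      simp only [mem_filter]
      tauto
    · intro n _
      exact mem_coe.mpr (mem_range.mpr (Nat.mod_lt _ (Wpos X)))
  rw [h1]
  push_cast
  calc (gp k δ X A T : ℝ) * (δ * ex X (k + 1))
      = ∑ b ∈ (range (Wm X)).filter
          (fun b => T ⊆ Vb X A b ∧ δ * ex X (k + 1) ≤ (cnB X b T : ℝ)), (δ * ex X (k + 1)) := by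
        rw [sum_const, nsmul_eq_mul]; rfl
    _ ≤ ∑ b ∈ (range (Wm X)).filter
          (fun b => T ⊆ Vb X A b ∧ δ * ex X (k + 1) ≤ (cnB X b T : ℝ)), (cnB X b T : ℝ) := by
        apply sum_le_sum
        intro b hb
        exact (mem_filter.mp hb).2.2
    _ ≤ ∑ b ∈ range (Wm X), (cnB X b T : ℝ) := by
        apply sum_le_sum_of_subset_of_nonneg (filter_subset _ _)
        intro _ _ _
        positivity

lemma ex_nonneg (X l : ℕ) : 0 ≤ ex X l := by
  unfold ex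
  have : 0 ≤ Real.log X := Real.log_natCast_nonneg X
  positivity

/-- DEN for consecutive primes -/
def DenC (k : ℕ) (Λ κ : ℝ) : Prop := ∀ (η ε : ℝ), 0 < η → 0 < ε →
  ∃ δ : ℝ, 0 < δ ∧ ∃ X₀ : ℕ, ∀ X : ℕ, X₀ ≤ X → ∀ b : ℕ, b < Wm X → ∀ V ⊆ Bw Λ X b,
  η * (Real.log X * (Nat.totient (Wm X) / Wm X)) ≤ (V.card : ℝ) →
  (κ - ε) * (V.card : ℝ) ^ (k + 1) ≤ ((goodC k δ X b V).card : ℝ)

open Classical in
/-- AVG for consecutive primes -/
def AvgC (k : ℕ) (Λ κ : ℝ) : Prop := ∀ (η ε : ℝ), 0 < η → 0 < ε →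
  ∃ δ : ℝ, 0 < δ ∧ ∃ X₀ : ℕ, ∀ X : ℕ, X₀ ≤ X → ∀ A : Finset ℕ,
  (∀ a ∈ A, 1 ≤ a ∧ (a : ℝ) ≤ Λ * Real.log X) → η * Real.log X ≤ A.card →
  (κ - ε) * ∑ T ∈ A.powersetCard (k + 1), (gW X T : ℝ) ≤
    ∑ T ∈ (A.powersetCard (k + 1)).filter (fun T =>
      δ * ((gW X T : ℝ) * ex X (k + 1)) ≤ (cnT X T : ℝ)), (gW X T : ℝ)

theorem denC (hEXC : S_EXC) (hMV : S_MV) (hW : Wtx) (k T K : ℕ) (Λ κ : ℝ) (hT : 1 ≤ T)
    (hK : 1 ≤ K) (hΛ : 0 < Λ) (hMT : MTc k T K Λ) (hD : Dens k T κ) : DenC k Λ κ := by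
  classical
  intro η ε hη hε
  obtain ⟨ε₁, n₁, hε₁, hD1⟩ := hD K hK ε hε
  obtain ⟨δ, hδ, X₀, hX₀⟩ := hEXC hMV hW k T K Λ hT hK hΛ hMT η ε₁ hη hε₁
  obtain ⟨X2, hX2⟩ := Pool.Agent.W12.HR.large hW η hη n₁
  refine ⟨δ, hδ, max X₀ X2, ?_⟩
  intro X hX b hb V hV hcard
  have hXa : X₀ ≤ X := (le_max_left _ _).trans hX
  have hXb : X2 ≤ X := (le_max_right _ _).trans hX
  exact hD1 V (fun F => δ * ex X (k + 1) ≤ (cnB X b F : ℝ))
    (by exact_mod_cast (hX2 X hXb).trans hcard) (hX₀ X hXa b hb V hV hcard)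

theorem avgC (k : ℕ) (Λ κ : ℝ) (hκ1 : κ ≤ 1) (hD : DenC k Λ κ) : AvgC k Λ κ := by
  classical
  intro η ε hη hε
  rcases le_or_gt κ ε with hκε | hκε
  · -- trivial case
    refine ⟨1, one_pos, 0, ?_⟩
    intro X _ A _ _
    calc (κ - ε) * ∑ T ∈ A.powersetCard (k + 1), (gW X T : ℝ) ≤ 0 := by
          apply mul_nonpos_of_nonpos_of_nonneg (by linarith)
          apply sum_nonneg
          intro _ _; positivity
      _ ≤ _ := by
          apply sum_nonneg
          intro _ _; positivity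
  set e2 : ℝ := ε / 3 with he2
  have he2pos : 0 < e2 := by rw [he2]; positivity
  have he2le : e2 ≤ 1 := by rw [he2]; linarith
  set η1 : ℝ := η * e2 with hη1
  have hη1pos : 0 < η1 := by rw [hη1]; positivity
  obtain ⟨δ, hδ, X₀, hX₀⟩ := hD η1 e2 hη1pos he2pos
  refine ⟨e2 * δ, by positivity, X₀, ?_⟩
  intro X hX A hA hAcard
  have hW0 : 0 < Wm X := Wpos X
  have hWr : (0 : ℝ) < Wm X := by exact_mod_cast hW0
  have hL : 0 ≤ Real.log X := Real.log_natCast_nonneg X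
  set ρ : ℝ := (Nat.totient (Wm X) : ℝ) / Wm X with hρ
  have hρ0 : 0 ≤ ρ := by rw [hρ]; positivity
  set N : ℕ → ℝ := fun b => ((Vb X A b).card : ℝ) with hN
  have hN0 : ∀ b, 0 ≤ N b := fun b => by simp only [hN]; positivity
  set S : ℝ := ∑ b ∈ range (Wm X), N b ^ (k + 1) with hS
  set P : ℝ := ∑ T ∈ A.powersetCard (k + 1), (gW X T : ℝ) with hP
  have hP0 : 0 ≤ P := by
    rw [hP]; apply sum_nonneg; intro _ _; positivity
  -- F1
  have hF1 : ((k + 1).factorial : ℝ) * P ≤ S := by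
    have h1 : P = ∑ b ∈ range (Wm X), (((Vb X A b).card.choose (k + 1) : ℕ) : ℝ) := by
      rw [hP]
      exact_mod_cast choose_sum k X A
    rw [h1, mul_sum, hS]
    apply sum_le_sum
    intro b _
    have h2 : (k + 1).factorial * (Vb X A b).card.choose (k + 1) ≤ (Vb X A b).card ^ (k + 1) := by
      rw [← Nat.descFactorial_eq_factorial_mul_choose]
      exact Nat.descFactorial_le_pow _ _
    simp only [hN]
    exact_mod_cast h2
  -- power mean
  have hPM : (Wm X : ℝ) * (η * Real.log X * ρ) ^ (k + 1) ≤ S := by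
    have h1 := pow_sum_div_card_le_sum_pow (s := range (Wm X)) (f := N) (fun b _ => hN0 b) k
    rw [card_range] at h1
    refine le_trans ?_ h1
    have h2 : ∑ b ∈ range (Wm X), N b = (A.card : ℝ) * Nat.totient (Wm X) := by
      simp only [hN]
      exact_mod_cast sum_Vb X A
    rw [h2, le_div_iff₀ (by positivity)]
    have h3 : (Wm X : ℝ) * (η * Real.log X * ρ) ^ (k + 1) * (Wm X : ℝ) ^ k =
        (η * Real.log X * Nat.totient (Wm X)) ^ (k + 1) := by
      rw [hρ]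
      rw [mul_pow, div_pow, mul_pow]
      field_simp
      ring
    rw [h3]
    apply pow_le_pow_left₀ (by positivity)
    apply mul_le_mul_of_nonneg_right hAcard (by positivity)
  -- classes
  set big : Finset ℕ := (range (Wm X)).filter (fun b => η1 * (Real.log X * ρ) ≤ N b) with hbig
  set small : Finset ℕ := (range (Wm X)).filter (fun b => ¬ η1 * (Real.log X * ρ) ≤ N b) with hsmall
  have hsplit : ∑ b ∈ big, N b ^ (k + 1) + ∑ b ∈ small, N b ^ (k + 1) = S := by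
    rw [hbig, hsmall, hS]
    exact sum_filter_add_sum_filter_not _ _ _
  have hsm : ∑ b ∈ small, N b ^ (k + 1) ≤ e2 * S := by
    calc ∑ b ∈ small, N b ^ (k + 1) ≤ ∑ b ∈ small, (η1 * (Real.log X * ρ)) ^ (k + 1) := by
          apply sum_le_sum
          intro b hb
          rw [hsmall, mem_filter, not_le] at hb
          exact pow_le_pow_left₀ (hN0 b) hb.2.le _
      _ ≤ ∑ b ∈ range (Wm X), (η1 * (Real.log X * ρ)) ^ (k + 1) := by
          apply sum_le_sum_of_subset_of_nonneg (filter_subset _ _)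
          intro _ _ _
          positivity
      _ = (Wm X : ℝ) * (e2 * (η * Real.log X * ρ)) ^ (k + 1) := by
          rw [sum_const, card_range, nsmul_eq_mul, hη1]
          congr 2
          ring
      _ = e2 ^ (k + 1) * ((Wm X : ℝ) * (η * Real.log X * ρ) ^ (k + 1)) := by
          rw [mul_pow]; ring
      _ ≤ e2 * ((Wm X : ℝ) * (η * Real.log X * ρ) ^ (k + 1)) := by
          apply mul_le_mul_of_nonneg_right _ (by positivity)
          calc e2 ^ (k + 1) ≤ e2 ^ 1 := pow_le_pow_of_le_one he2pos.le he2le (by omega)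
            _ = e2 := pow_one _
      _ ≤ e2 * S := mul_le_mul_of_nonneg_left hPM he2pos.le
  have hS0 : 0 ≤ S := by
    rw [hS]; apply sum_nonneg; intro b _; exact pow_nonneg (hN0 b) _
  have hκe : 0 ≤ κ - e2 := by rw [he2]; linarith
  have hbigsum : (κ - e2) * ((1 - e2) * S) ≤
      ∑ b ∈ range (Wm X), ((goodC k δ X b (Vb X A b)).card : ℝ) := by
    calc (κ - e2) * ((1 - e2) * S) ≤ (κ - e2) * ∑ b ∈ big, N b ^ (k + 1) := by
          apply mul_le_mul_of_nonneg_left _ hκe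
          linarith
      _ = ∑ b ∈ big, (κ - e2) * N b ^ (k + 1) := by rw [mul_sum]
      _ ≤ ∑ b ∈ big, ((goodC k δ X b (Vb X A b)).card : ℝ) := by
          apply sum_le_sum
          intro b hb
          rw [hbig, mem_filter, mem_range] at hb
          exact hX₀ X hX b hb.1 (Vb X A b) (Vb_sub Λ X A hA b) hb.2
      _ ≤ _ := by
          apply sum_le_sum_of_subset_of_nonneg (filter_subset _ _)
          intro _ _ _
          positivity
  have hgood : ∑ b ∈ range (Wm X), ((goodC k δ X b (Vb X A b)).card : ℝ) ≤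
      ((k + 1).factorial : ℝ) * ∑ T ∈ A.powersetCard (k + 1), (gp k δ X A T : ℝ) := by
    have h1 : ∑ b ∈ range (Wm X), (goodC k δ X b (Vb X A b)).card ≤
        (k + 1).factorial * ∑ T ∈ A.powersetCard (k + 1), gp k δ X A T := by
      rw [← sum_QT, mul_sum]
      apply sum_le_sum
      intro b _
      exact good_le k δ X b A
    exact_mod_cast h1
  have hfac : (0 : ℝ) < ((k + 1).factorial : ℝ) := by positivity
  have hgp : (κ - 2 * e2) * P ≤ ∑ T ∈ A.powersetCard (k + 1), (gp k δ X A T : ℝ) := by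
    have h1 : (κ - 2 * e2) * S ≤ (κ - e2) * ((1 - e2) * S) := by
      have h2 : (κ - e2) * (1 - e2) - (κ - 2 * e2) = e2 * (1 - κ) + e2 ^ 2 := by ring
      have h3 : 0 ≤ e2 * (1 - κ) + e2 ^ 2 := by
        have : 0 ≤ 1 - κ := by linarith
        positivity
      nlinarith
    have hκ2 : 0 ≤ κ - 2 * e2 := by rw [he2]; linarith
    have h4 : ((k + 1).factorial : ℝ) * ((κ - 2 * e2) * P) ≤
        ((k + 1).factorial : ℝ) * ∑ T ∈ A.powersetCard (k + 1), (gp k δ X A T : ℝ) := by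
      calc ((k + 1).factorial : ℝ) * ((κ - 2 * e2) * P)
          = (κ - 2 * e2) * (((k + 1).factorial : ℝ) * P) := by ring
        _ ≤ (κ - 2 * e2) * S := mul_le_mul_of_nonneg_left hF1 hκ2
        _ ≤ _ := h1
        _ ≤ _ := hbigsum
        _ ≤ _ := hgood
    exact le_of_mul_le_mul_left h4 hfac
  -- good sets
  set Gs : Finset (Finset ℕ) :=
    (A.powersetCard (k + 1)).filter (fun T => e2 * (gW X T : ℝ) ≤ gp k δ X A T) with hGs
  set Bs : Finset (Finset ℕ) :=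
    (A.powersetCard (k + 1)).filter (fun T => ¬ e2 * (gW X T : ℝ) ≤ gp k δ X A T) with hBs
  have hsp2 : ∑ T ∈ Gs, (gp k δ X A T : ℝ) + ∑ T ∈ Bs, (gp k δ X A T : ℝ) =
      ∑ T ∈ A.powersetCard (k + 1), (gp k δ X A T : ℝ) := by
    rw [hGs, hBs]
    exact sum_filter_add_sum_filter_not _ _ _
  have hBsum : ∑ T ∈ Bs, (gp k δ X A T : ℝ) ≤ e2 * P := by
    calc ∑ T ∈ Bs, (gp k δ X A T : ℝ) ≤ ∑ T ∈ Bs, e2 * (gW X T : ℝ) := by
          apply sum_le_sum
          intro T hT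
          rw [hBs, mem_filter, not_le] at hT
          exact hT.2.le
      _ ≤ ∑ T ∈ A.powersetCard (k + 1), e2 * (gW X T : ℝ) := by
          apply sum_le_sum_of_subset_of_nonneg (filter_subset _ _)
          intro _ _ _
          positivity
      _ = e2 * P := by rw [hP, mul_sum]
  have hGsum : ∑ T ∈ Gs, (gp k δ X A T : ℝ) ≤ ∑ T ∈ Gs, (gW X T : ℝ) := by
    apply sum_le_sum
    intro T hT
    rw [hGs, mem_filter, mem_powersetCard] at hT
    exact_mod_cast gp_le k δ X A T hT.1.1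
  have hfinal : (κ - ε) * P ≤ ∑ T ∈ Gs, (gW X T : ℝ) := by
    have : (κ - ε) * P = (κ - 2 * e2) * P - e2 * P := by rw [he2]; ring
    linarith
  refine hfinal.trans ?_
  apply sum_le_sum_of_subset_of_nonneg
  · intro T hT
    rw [hGs, mem_filter] at hT
    rw [mem_filter]
    refine ⟨hT.1, ?_⟩
    have h1 := cnT_ge k δ X A T
    have h2 : e2 * δ * ((gW X T : ℝ) * ex X (k + 1)) ≤ (gp k δ X A T : ℝ) * (δ * ex X (k + 1)) := by
      calc e2 * δ * ((gW X T : ℝ) * ex X (k + 1)) = (e2 * (gW X T : ℝ)) * (δ * ex X (k + 1)) := by ring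
        _ ≤ _ := by
          apply mul_le_mul_of_nonneg_right hT.2
          have := ex_nonneg X (k + 1)
          positivity
    exact h2.trans h1
  · intro _ _ _
    positivity

theorem finC (k : ℕ) (Λ κ₀ : ℝ) (hκ1 : κ₀ ≤ 1) (hAVG : AvgC k Λ κ₀) (hCTB : S_CTB) : FinC k Λ κ₀ := by
  classical
  intro η ε hη hε
  rcases le_or_gt Λ 0 with hΛ | hΛ
  · refine ⟨1, one_pos, 2, fun X hX A hA hcard => ?_⟩
    exfalso
    have hX1 : (1 : ℝ) < X := by
      have : (2 : ℝ) ≤ X := by exact_mod_cast hX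
      linarith
    have hL : 0 < Real.log X := Real.log_pos hX1
    have h1 : (0 : ℝ) < A.card := lt_of_lt_of_le (mul_pos hη hL) hcard
    have h2 : 0 < A.card := by exact_mod_cast h1
    obtain ⟨a, ha⟩ := card_pos.1 h2
    obtain ⟨h3, h4⟩ := hA a ha
    have h5 : (1 : ℝ) ≤ a := by exact_mod_cast h3
    nlinarith
  obtain ⟨s, hs0, hs1, hs2⟩ : ∃ s : ℝ, 0 < s ∧ s ≤ 1 / 4 ∧ s ≤ ε / 4 :=
    ⟨min (1 / 4) (ε / 4), by positivity, min_le_left _ _, min_le_right _ _⟩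
  obtain ⟨X1, hX1⟩ := hCTB (k + 1) Λ s hΛ hs0
  obtain ⟨δ0, hδ0, X2, hX2⟩ := hAVG η (ε / 2) hη (by positivity)
  refine ⟨δ0 / 2, by positivity, max X1 X2, fun X hX A hA hcard => ?_⟩
  have k1 := hX1 X (le_trans (le_max_left _ _) hX)
  have k2 := hX2 X (le_trans (le_max_right _ _) hX) A hA hcard
  obtain ⟨κ, hκ⟩ : ∃ κ : ℝ, κ = 1 / Wm X * ((Wm X : ℝ) / Nat.totient (Wm X)) ^ (k + 1) :=
    ⟨_, rfl⟩
  have hκ0 : 0 ≤ κ := by
    rw [hκ]
    positivity
  have hT : ∀ T ∈ A.powersetCard (k + 1), (1 - s) * (κ * gW X T) ≤ Pool.Agent.H387R2.Uni.CT T ∧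
      Pool.Agent.H387R2.Uni.CT T ≤ (1 + s) * (κ * gW X T) := by
    intro T hT
    rw [mem_powersetCard] at hT
    have h1 := k1 T hT.2 fun a ha => hA a (hT.1 ha)
    have h2 : (gW X T : ℝ) / Wm X * ((Wm X : ℝ) / Nat.totient (Wm X)) ^ (k + 1) =
        κ * gW X T := by
      rw [hκ]
      ring
    rw [h2] at h1
    exact h1
  have hex : ∀ T : Finset ℕ, (gW X T : ℝ) * ex X (k + 1) =
      κ * gW X T * (X / Real.log X ^ (k + 1)) := by
    intro T
    have h1 : (Wm X : ℝ) / (Nat.totient (Wm X) * Real.log X) =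
        (Wm X : ℝ) / Nat.totient (Wm X) / Real.log X := by
      rw [div_div]
    unfold ex
    rw [hκ, h1, div_pow]
    ring
  have hCT0 : ∀ T : Finset ℕ, 0 ≤ Pool.Agent.H387R2.Uni.CT T := fun T =>
    Pool.Agent.H387R2.Uni.CT_nonneg T
  rcases le_or_gt (κ₀ - ε) 0 with hq | hq
  · refine le_trans (mul_nonpos_of_nonpos_of_nonneg hq (sum_nonneg fun T _ => hCT0 T)) ?_
    exact sum_nonneg fun T _ => hCT0 T
  have hsub : (A.powersetCard (k + 1)).filter (fun T =>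
      δ0 * ((gW X T : ℝ) * ex X (k + 1)) ≤ (cnT X T : ℝ)) ⊆
      (A.powersetCard (k + 1)).filter (fun T =>
      δ0 / 2 * (Pool.Agent.H387R2.Uni.CT T * (X / Real.log X ^ (k + 1))) ≤ (cnT X T : ℝ)) := by
    intro T hT'
    rw [mem_filter] at hT' ⊢
    refine ⟨hT'.1, le_trans ?_ hT'.2⟩
    rw [hex]
    have h1 := (hT T hT'.1).2
    have h2 : 0 ≤ (X : ℝ) / Real.log X ^ (k + 1) := by
      have : 0 ≤ Real.log X := Real.log_natCast_nonneg X
      positivity
    have h3 : 0 ≤ κ * (gW X T : ℝ) := by positivity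
    have h4 : Pool.Agent.H387R2.Uni.CT T ≤ 2 * (κ * gW X T) := by nlinarith
    calc δ0 / 2 * (Pool.Agent.H387R2.Uni.CT T * (X / Real.log X ^ (k + 1))) ≤
        δ0 / 2 * ((2 * (κ * gW X T)) * (X / Real.log X ^ (k + 1))) := by gcongr
      _ = _ := by ring
  have hS1 : ∑ T ∈ (A.powersetCard (k + 1)).filter (fun T =>
      δ0 * ((gW X T : ℝ) * ex X (k + 1)) ≤ (cnT X T : ℝ)), Pool.Agent.H387R2.Uni.CT T ≤
      ∑ T ∈ (A.powersetCard (k + 1)).filter (fun T =>
      δ0 / 2 * (Pool.Agent.H387R2.Uni.CT T * (X / Real.log X ^ (k + 1))) ≤ (cnT X T : ℝ)),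
      Pool.Agent.H387R2.Uni.CT T :=
    sum_le_sum_of_subset_of_nonneg hsub fun T _ _ => hCT0 T
  have hS2 : (1 - s) * (κ * ∑ T ∈ (A.powersetCard (k + 1)).filter (fun T =>
      δ0 * ((gW X T : ℝ) * ex X (k + 1)) ≤ (cnT X T : ℝ)), (gW X T : ℝ)) ≤
      ∑ T ∈ (A.powersetCard (k + 1)).filter (fun T =>
      δ0 * ((gW X T : ℝ) * ex X (k + 1)) ≤ (cnT X T : ℝ)), Pool.Agent.H387R2.Uni.CT T := by
    rw [mul_sum, mul_sum]
    exact sum_le_sum fun T hT' => (hT T (mem_filter.1 hT').1).1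
  have hS3 : ∑ T ∈ A.powersetCard (k + 1), Pool.Agent.H387R2.Uni.CT T ≤
      (1 + s) * (κ * ∑ T ∈ A.powersetCard (k + 1), (gW X T : ℝ)) := by
    rw [mul_sum, mul_sum]
    exact sum_le_sum fun T hT' => (hT T hT').2
  obtain ⟨G, hG⟩ : ∃ G : ℝ, G = ∑ T ∈ A.powersetCard (k + 1), (gW X T : ℝ) := ⟨_, rfl⟩
  have hG0 : 0 ≤ G := by
    rw [hG]
    positivity
  rw [← hG] at hS3 k2
  have hκG : 0 ≤ κ * G := mul_nonneg hκ0 hG0
  have h1 : (1 - s) * (κ * ((κ₀ - ε / 2) * G)) ≤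
      (1 - s) * (κ * ∑ T ∈ (A.powersetCard (k + 1)).filter (fun T =>
      δ0 * ((gW X T : ℝ) * ex X (k + 1)) ≤ (cnT X T : ℝ)), (gW X T : ℝ)) := by
    have h2 : 0 ≤ 1 - s := by linarith
    gcongr
  refine le_trans ?_ (h1.trans (hS2.trans hS1))
  calc (κ₀ - ε) * ∑ T ∈ A.powersetCard (k + 1), Pool.Agent.H387R2.Uni.CT T ≤
      (κ₀ - ε) * ((1 + s) * (κ * G)) := mul_le_mul_of_nonneg_left hS3 hq.le
    _ = ((κ₀ - ε) * (1 + s)) * (κ * G) := by ring
    _ ≤ ((1 - s) * (κ₀ - ε / 2)) * (κ * G) := by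
        refine mul_le_mul_of_nonneg_right ?_ hκG
        nlinarith
    _ = _ := by ring

theorem avc : S_AVC := by
  intro hEXC hMV hCTB hW k T K Λ κ hT hK hΛ _ hκ1 hMT hD
  exact finC k Λ κ hκ1 (avgC k Λ κ hκ1 (denC hEXC hMV hW k T K Λ κ hT hK hΛ hMT hD)) hCTB

end Pool.Agent.W70.HRC
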