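import Pool.Agent.W70.HR.Stm

/-!
# Project HRC (helper70): consecutive primes with the right order of magnitude

Continuation of project HR (`Pool.Agent.W70.HR.Stm`, whose notation is used): `Bw Λ X b` are the
positions `1 ≤ a ≤ Λ log X` with `b + a` prime to `W = Wm X`, `SI X b` the integers `n` of `[X, 2X)`
in the class `b` modulo `W`, `rg (P1 (HH X) (JJ δ X)) a n` the indicator that `n + a` is rough (no
prime factor in `P1 (HH X) (JJ δ X)`), `Om δ X N = X / W * VV ^ N` the expected number of `n` in the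
class with `N` prescribed rough positions, `ex X l` the expected number of `n` in the class with `l`
prescribed prime positions.
-/

set_option autoImplicit false

open Finset

namespace Pool.Agent.W70.HRC

open Pool.Agent.H361R2.PP Pool.Agent.W70.HR

/-- the numbers `n + a`, `a ∈ F`, are consecutive primes -/
def Cns (n : ℕ) (F : Finset ℕ) : Prop :=
  (∀ a ∈ F, (n + a).Prime) ∧
    ∀ j : ℕ, (∃ a ∈ F, a ≤ j) → (∃ a ∈ F, j ≤ a) → (n + j).Prime → j ∈ F

open Classical in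
/-- the number of `n` in the class `b` for which the `n + a`, `a ∈ F`, are consecutive primes -/
noncomputable def cnB (X b : ℕ) (F : Finset ℕ) : ℕ := ((SI X b).filter (fun n => Cns n F)).card

open Classical in
/-- the number of `n ∈ [X, 2X)` for which the `n + a`, `a ∈ F`, are consecutive primes -/
noncomputable def cnT (X : ℕ) (F : Finset ℕ) : ℕ :=
  ((Ico X (2 * X)).filter (fun n => Cns n F)).card

open Classical in
/-- the number of `n` for which the rough positions in `Bw Λ X b` are exactly the `H g i`, and some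
`k + 1` positions from `k + 1` different classes `H g` are consecutive primes -/
noncomputable def hitsC (δ Λ : ℝ) (k X b T K : ℕ) (H : Fin T → Fin K → ℕ) : ℕ :=
  ((SI X b).filter (fun n => (∀ g i, rg (P1 (HH X) (JJ δ X)) (H g i) n = 1) ∧
    (∀ a ∈ Bw Λ X b, rg (P1 (HH X) (JJ δ X)) a n = 1 → ∃ g i, H g i = a) ∧
    ∃ (S : Finset (Fin T)) (c : Fin T → Fin K), S.card = k + 1 ∧
      Cns n (S.image (fun g => H g (c g))))).card

/-- coloured Maynard-Tao theorem for consecutive primes, `T` classes of `K` positions in the window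
`[1, Λ log X]` -/
def MTc (k T K : ℕ) (Λ : ℝ) : Prop := ∃ δ c : ℝ, 0 < δ ∧ δ ≤ 1 / 8 ∧ 0 < c ∧
  ∃ X₀ : ℕ, ∀ X : ℕ, X₀ ≤ X → ∀ b : ℕ, b < Wm X → 0 < VV δ X ∧
  ∀ H : Fin T → Fin K → ℕ, (∀ g i, H g i ∈ Bw Λ X b) →
    Function.Injective (fun x : Fin T × Fin K => H x.1 x.2) →
    c * Om δ X (T * K) ≤ (hitsC δ Λ k X b T K H : ℝ)

/-- `k + 1` positions from different classes are primes, and they are consecutive among the prime
positions `H g i` (there may be other primes between them) -/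
def Wdw (k n : ℕ) {T K : ℕ} (H : Fin T → Fin K → ℕ) : Prop :=
  ∃ (S : Finset (Fin T)) (c : Fin T → Fin K), S.card = k + 1 ∧
    (∀ g ∈ S, (n + H g (c g)).Prime) ∧
    ∀ (g : Fin T) (i : Fin K), (n + H g i).Prime → (∃ g' ∈ S, H g' (c g') ≤ H g i) →
      (∃ g' ∈ S, H g i ≤ H g' (c g')) → ∃ g' ∈ S, H g' (c g') = H g i

open Classical in
/-- the number of `n` for which the `H g i` are rough and `k + 1` positions from different classes
are consecutive among the prime positions `H g i` -/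
noncomputable def hitsP (δ : ℝ) (k X b T K : ℕ) (H : Fin T → Fin K → ℕ) : ℕ :=
  ((SI X b).filter (fun n => (∀ g i, rg (P1 (HH X) (JJ δ X)) (H g i) n = 1) ∧ Wdw k n H)).card

/-- preliminary form: positions in `[1, log X]`, other rough positions allowed -/
def MTp (k T K : ℕ) : Prop := ∃ δ c : ℝ, 0 < δ ∧ δ ≤ 1 / 8 ∧ 0 < c ∧
  ∃ X₀ : ℕ, ∀ X : ℕ, X₀ ≤ X → ∀ b : ℕ, b < Wm X → 0 < VV δ X ∧
  (∀ U ⊆ Bw 1 X b, U.card ≤ T * K + 1 → ∑ n ∈ SI X b, rU δ X U n ≤ 2 * Om δ X U.card) ∧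
  ∀ H : Fin T → Fin K → ℕ, (∀ g i, H g i ∈ Bw 1 X b) →
    Function.Injective (fun x : Fin T × Fin K => H x.1 x.2) →
    c * Om δ X (T * K) ≤ (hitsP δ k X b T K H : ℝ)

/-- PRE1: two primes, five classes -/
def S_PRE1 : Prop := S_MT → ∃ K : ℕ, 1 ≤ K ∧ MTp 1 5 K

open Classical in
/-- WIN: a finite set with few pairs of elements of the same class contains `k + 1` consecutive
elements of different classes -/
def S_WIN : Prop := ∀ (k : ℕ) (P : Finset ℕ) (f : ℕ → ℕ), 1 ≤ k →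
  k + k * ((P ×ˢ P).filter (fun x => x.1 < x.2 ∧ f x.1 = f x.2)).card < P.card →
  ∃ F ⊆ P, F.card = k + 1 ∧ Set.InjOn f (F : Set ℕ) ∧
    ∀ j ∈ P, (∃ a ∈ F, a ≤ j) → (∃ a ∈ F, j ≤ a) → j ∈ F

/-- PREk: `k + 1` primes, `8 k ^ 2 + 1` classes -/
def S_PREk : Prop := S_WT → S_WIN → ∀ k : ℕ, 1 ≤ k → ∃ K : ℕ, 1 ≤ K ∧ MTp k (8 * k ^ 2 + 1) K

/-- EXA: no other rough positions in a short window -/
def S_EXA : Prop := Cnt → Mer → Wtx → ∀ k T K : ℕ, 1 ≤ T → 1 ≤ K → MTp k T K →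
  ∃ Λ : ℝ, 0 < Λ ∧ Λ ≤ 1 ∧ MTc k T K Λ

open Classical in
/-- the injective `H` with values in `V` without a good set of `k + 1` elements of `k + 1` different
classes -/
noncomputable def ExC (G : Finset ℕ → Prop) (k T K : ℕ) (V : Finset ℕ) :
    Finset (Fin T → Fin K → ℕ) :=
  (Fintype.piFinset (fun _ : Fin T => Fintype.piFinset (fun _ : Fin K => V))).filter (fun H =>
    Function.Injective (fun x : Fin T × Fin K => H x.1 x.2) ∧
    ¬ ∃ (S : Finset (Fin T)) (c : Fin T → Fin K), S.card = k + 1 ∧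
      G (S.image (fun g => H g (c g))))

/-- EXC: there are few exceptional `H` -/
def S_EXC : Prop := S_MV → Wtx → ∀ (k T K : ℕ) (Λ : ℝ), 1 ≤ T → 1 ≤ K → 0 < Λ → MTc k T K Λ →
  ∀ η ε : ℝ, 0 < η → 0 < ε → ∃ δ : ℝ, 0 < δ ∧ ∃ X₀ : ℕ, ∀ X : ℕ, X₀ ≤ X → ∀ b : ℕ, b < Wm X →
  ∀ V ⊆ Bw Λ X b, η * (Real.log X * (Nat.totient (Wm X) / Wm X)) ≤ (V.card : ℝ) →
  ((ExC (fun F => δ * ex X (k + 1) ≤ (cnB X b F : ℝ)) k T K V).card : ℝ) ≤
    ε * (V.card : ℝ) ^ (T * K)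

open Classical in
/-- DENS: if there are few exceptional `H` then the proportion of the good tuples is at least
`κ - ε` -/
def Dens (k T : ℕ) (κ : ℝ) : Prop := ∀ K : ℕ, 1 ≤ K → ∀ ε : ℝ, 0 < ε →
  ∃ (ε₁ : ℝ) (n₁ : ℕ), 0 < ε₁ ∧ ∀ (V : Finset ℕ) (G : Finset ℕ → Prop), n₁ ≤ V.card →
  ((ExC G k T K V).card : ℝ) ≤ ε₁ * (V.card : ℝ) ^ (T * K) →
  (κ - ε) * (V.card : ℝ) ^ (k + 1) ≤
    (((Fintype.piFinset (fun _ : Fin (k + 1) => V)).filter (fun y => Function.Injective y ∧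
      G (univ.image y))).card : ℝ)

/-- DEN1 -/
def S_DEN1 : Prop := Dens 1 5 (1 / 4)

/-- DENk -/
def S_DENk : Prop := ∀ k T : ℕ, k + 1 ≤ T → Dens k T (1 / (T.choose (k + 1) : ℝ))

open Classical in
/-- FINC: the final theorem, for a proportion `κ` -/
def FinC (k : ℕ) (Λ κ : ℝ) : Prop := ∀ η ε : ℝ, 0 < η → 0 < ε →
  ∃ δ : ℝ, 0 < δ ∧ ∃ X₀ : ℕ, ∀ X : ℕ, X₀ ≤ X → ∀ A : Finset ℕ,
  (∀ a ∈ A, 1 ≤ a ∧ (a : ℝ) ≤ Λ * Real.log X) → η * Real.log X ≤ A.card →
  (κ - ε) * ∑ T ∈ A.powersetCard (k + 1), Pool.Agent.H387R2.Uni.CT T ≤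
    ∑ T ∈ (A.powersetCard (k + 1)).filter (fun T =>
      δ * (Pool.Agent.H387R2.Uni.CT T * (X / Real.log X ^ (k + 1))) ≤ (cnT X T : ℝ)),
      Pool.Agent.H387R2.Uni.CT T

/-- AVC: from one class to all classes -/
def S_AVC : Prop := S_EXC → S_MV → S_CTB → Wtx → ∀ (k T K : ℕ) (Λ κ : ℝ), 1 ≤ T → 1 ≤ K → 0 < Λ →
  0 ≤ κ → κ ≤ 1 → MTc k T K Λ → Dens k T κ → FinC k Λ κ

end Pool.Agent.W70.HRC
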