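import Pool.Agent.W70.HR.Asm
import Pool.Agent.W70.HRC.Avc
import Pool.Agent.W356.HRC.Pre1
import Pool.Agent.W978.HRC.Win
import Pool.Agent.W74.HRC.PREk
import Pool.Agent.W101.HRC.Exa
import Pool.Agent.W407.HRC.Exc

/-! Project HRC: assembly (without the combinatorial density theorems). -/

set_option autoImplicit false

namespace Pool.Agent.W70.HRC

open Pool.Agent.H361R2.PP Pool.Agent.W70.HR

theorem wt_final : S_WT := wt sm par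

theorem mtc1 : ∃ K : ℕ, 1 ≤ K ∧ ∃ Λ : ℝ, 0 < Λ ∧ Λ ≤ 1 ∧ MTc 1 5 K Λ := by
  obtain ⟨K, hK, h⟩ := Pool.Agent.W356.HRC.pre1 mt_final
  exact ⟨K, hK, Pool.Agent.W101.HRC.exa Pool.Agent.H363R2.PPCnt.cnt mer Pool.Agent.H325R2.wtx
    1 5 K (by norm_num) hK h⟩

theorem mtck (k : ℕ) (hk : 1 ≤ k) : ∃ K : ℕ, 1 ≤ K ∧ ∃ Λ : ℝ, 0 < Λ ∧ Λ ≤ 1 ∧
    MTc k (8 * k ^ 2 + 1) K Λ := by
  obtain ⟨K, hK, h⟩ := Pool.Agent.W74.HRC.prek wt_final Pool.Agent.W978.HRC.win k hk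
  exact ⟨K, hK, Pool.Agent.W101.HRC.exa Pool.Agent.H363R2.PPCnt.cnt mer Pool.Agent.H325R2.wtx
    k (8 * k ^ 2 + 1) K (by omega) hK h⟩

theorem fin1 (hD : S_DEN1) : ∃ Λ : ℝ, 0 < Λ ∧ Λ ≤ 1 ∧ FinC 1 Λ (1 / 4) := by
  obtain ⟨K, hK, Λ, h1, h2, h⟩ := mtc1
  exact ⟨Λ, h1, h2, avc Pool.Agent.W407.HRC.exc mv ctb Pool.Agent.H325R2.wtx 1 5 K Λ (1 / 4)
    (by norm_num) hK h1 (by norm_num) (by norm_num) h hD⟩

theorem fink (hD : S_DENk) (k : ℕ) (hk : 1 ≤ k) : ∃ Λ : ℝ, 0 < Λ ∧ Λ ≤ 1 ∧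
    FinC k Λ (1 / ((8 * k ^ 2 + 1).choose (k + 1) : ℝ)) := by
  obtain ⟨K, hK, Λ, h1, h2, h⟩ := mtck k hk
  have hle : k + 1 ≤ 8 * k ^ 2 + 1 := by nlinarith
  have hc : (1 : ℝ) ≤ ((8 * k ^ 2 + 1).choose (k + 1) : ℝ) := by
    exact_mod_cast Nat.choose_pos hle
  exact ⟨Λ, h1, h2, avc Pool.Agent.W407.HRC.exc mv ctb Pool.Agent.H325R2.wtx k (8 * k ^ 2 + 1) K Λ
    _ (by omega) hK h1 (by positivity) (by rw [div_le_one (by linarith)]; exact hc) h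
    (hD k (8 * k ^ 2 + 1) hle)⟩

end Pool.Agent.W70.HRC
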