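import Pool.Agent.W70.HRC.Asm
import Pool.Agent.W327.HRC.Den1
import Pool.Agent.W973.HRC.DenK

/-! Project HRC: the final theorems. -/

set_option autoImplicit false

namespace Pool.Agent.W70.HRC

theorem fin_one : ∃ Λ : ℝ, 0 < Λ ∧ Λ ≤ 1 ∧ FinC 1 Λ (1 / 4) := fin1 Pool.Agent.W327.HRC.den1

theorem fin_k (k : ℕ) (hk : 1 ≤ k) : ∃ Λ : ℝ, 0 < Λ ∧ Λ ≤ 1 ∧
    FinC k Λ (1 / ((8 * k ^ 2 + 1).choose (k + 1) : ℝ)) := fink Pool.Agent.W973.HRC.denk k hk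

end Pool.Agent.W70.HRC
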